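import Pool.Agent.H590Z.HC.Blk

set_option autoImplicit false

open Finset

namespace Pool.Agent.H590Z.HC

namespace B2

/-- numerator -/
noncomputable def Num (η : ℝ) (n : ℕ) : ℝ :=
  ∏ l ∈ range n, (1 + if Even l then 4 * η ^ 2 / ((l : ℝ) + 1) ^ 2 else 0)

lemma one_le_PP (η : ℝ) (n : ℕ) : 1 ≤ PP η n :=
  Finset.one_le_prod fun l _ => le_add_of_nonneg_right (by positivity)

lemma one_le_Num (η : ℝ) (n : ℕ) : 1 ≤ Num η n :=
  Finset.one_le_prod fun l _ => le_add_of_nonneg_right (by split_ifs <;> positivity)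

lemma PP_succ (η : ℝ) (n : ℕ) : PP η (n + 1) = PP η n * (1 + η ^ 2 / ((n : ℝ) + 1) ^ 2) :=
  prod_range_succ _ _

lemma Num_succ (η : ℝ) (n : ℕ) : Num η (n + 1) =
    Num η n * (1 + if Even n then 4 * η ^ 2 / ((n : ℝ) + 1) ^ 2 else 0) :=
  prod_range_succ _ _

lemma PP_mono (η : ℝ) {m n : ℕ} (h : m ≤ n) : PP η m ≤ PP η n := by
  induction n, h using Nat.le_induction with
  | base => exact le_rfl
  | succ n _ ih =>
    rw [PP_succ]
    have := one_le_PP η n
    have h2 : 0 ≤ η ^ 2 / ((n : ℝ) + 1) ^ 2 := by positivity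
    nlinarith

lemma Num_mono (η : ℝ) {m n : ℕ} (h : m ≤ n) : Num η m ≤ Num η n := by
  induction n, h using Nat.le_induction with
  | base => exact le_rfl
  | succ n _ ih =>
    rw [Num_succ]
    have := one_le_Num η n
    have h2 : 0 ≤ (if Even n then 4 * η ^ 2 / ((n : ℝ) + 1) ^ 2 else 0) := by
      split_ifs <;> positivity
    nlinarith

lemma PP_le_Num (η : ℝ) (m : ℕ) : PP η m ≤ Num η (2 * m) := by
  induction m with
  | zero => simp [PP, Num]
  | succ m ih =>
    have h1 : Num η (2 * m + 1) ≤ Num η (2 * (m + 1)) := Num_mono η (by omega)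
    refine le_trans ?_ h1
    rw [PP_succ, Num_succ, if_pos (even_two_mul m)]
    refine mul_le_mul ih ?_ (by positivity) (le_trans zero_le_one (one_le_Num _ _))
    have hm : (0 : ℝ) ≤ m := Nat.cast_nonneg m
    have : η ^ 2 / ((m : ℝ) + 1) ^ 2 ≤ 4 * η ^ 2 / (((2 * m : ℕ) : ℝ) + 1) ^ 2 := by
      push_cast
      rw [div_le_div_iff₀ (by positivity) (by positivity)]
      have h0 : 0 ≤ η ^ 2 := sq_nonneg η
      nlinarith [mul_nonneg h0 hm]
    linarith

lemma PP_le_exp (η : ℝ) {m n : ℕ} (hm : 1 ≤ m) (h : m ≤ n) :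
    PP η n ≤ PP η m * Real.exp (η ^ 2 * (1 / m - 1 / n)) := by
  induction n, h using Nat.le_induction with
  | base => simp
  | succ n hn ih =>
    have hn1 : (1 : ℝ) ≤ n := by exact_mod_cast hm.trans hn
    have h1 : 1 + η ^ 2 / ((n : ℝ) + 1) ^ 2 ≤ Real.exp (η ^ 2 * (1 / n - 1 / (n + 1))) := by
      refine le_trans ?_ (Real.add_one_le_exp _)
      have : η ^ 2 / ((n : ℝ) + 1) ^ 2 ≤ η ^ 2 * (1 / n - 1 / (n + 1)) := by
        rw [div_eq_mul_one_div]
        refine mul_le_mul_of_nonneg_left ?_ (sq_nonneg η)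
        rw [div_sub_div _ _ (by positivity) (by positivity), div_le_div_iff₀ (by positivity)
          (by positivity)]
        nlinarith
      linarith
    rw [PP_succ]
    have h0 := one_le_PP η m
    refine (mul_le_mul ih h1 (by positivity) (by positivity)).trans (le_of_eq ?_)
    rw [mul_assoc, ← Real.exp_add]
    congr 2
    push_cast
    ring

lemma PP_le_three (η : ℝ) (J n : ℕ) (h1 : 1 ≤ η ^ 2) (hJ : η ^ 2 ≤ J) (hn : 2 * J ≤ n) :
    PP η n ≤ 3 * Num η n := by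
  have hJ1 : 1 ≤ J := by exact_mod_cast h1.trans hJ
  have hm : J ≤ n / 2 := by omega
  have hm' : (J : ℝ) ≤ (n / 2 : ℕ) := by exact_mod_cast hm
  have h2 := PP_le_exp η (m := n / 2) (n := n) (by omega) (by omega)
  have h3 : η ^ 2 * (1 / ((n / 2 : ℕ) : ℝ) - 1 / n) ≤ 1 := by
    have hp : (0 : ℝ) < (n / 2 : ℕ) := by linarith
    have h4 : η ^ 2 * (1 / ((n / 2 : ℕ) : ℝ)) ≤ 1 := by
      rw [mul_one_div, div_le_one hp]; linarith
    have h5 : 0 ≤ η ^ 2 * (1 / (n : ℝ)) := by positivity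
    rw [mul_sub]; linarith
  have h4 : Real.exp (η ^ 2 * (1 / ((n / 2 : ℕ) : ℝ) - 1 / n)) ≤ 3 :=
    (Real.exp_le_exp.2 h3).trans Real.exp_one_lt_three.le
  have h5 : PP η (n / 2) ≤ Num η n := (PP_le_Num η _).trans (Num_mono η (by omega))
  have h6 := one_le_PP η (n / 2)
  calc PP η n ≤ PP η (n / 2) * 3 := h2.trans (mul_le_mul_of_nonneg_left h4 (by linarith))
    _ ≤ 3 * Num η n := by linarith

lemma factor_sq (T s h : ℝ) (hs : 0 < s) (k j l : ℕ) (hl : k = j + (l + 1) ∨ j = k + (l + 1)) :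
    ‖(zr T s h k - zr T s h j) / (zr T s h k - nd T s j)‖ ^ 2 =
      (1 + if Even l then 4 * (h / s) ^ 2 / ((l : ℝ) + 1) ^ 2 else 0) /
        (1 + (h / s) ^ 2 / ((l : ℝ) + 1) ^ 2) := by
  have e1 : zr T s h k - zr T s h j =
      (((k : ℝ) - j) * s : ℝ) + ((((-1) ^ k - (-1) ^ j) * h : ℝ) : ℂ) * Complex.I := by
    simp only [zr, nd]; push_cast; ring
  have e2 : zr T s h k - nd T s j =
      (((k : ℝ) - j) * s : ℝ) + ((((-1) ^ k) * h : ℝ) : ℂ) * Complex.I := by
    simp only [zr, nd]; push_cast; ring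
  rw [norm_div, div_pow, e1, e2, Complex.sq_norm, Complex.sq_norm, Complex.normSq_add_mul_I,
    Complex.normSq_add_mul_I]
  have h1 : ((k : ℝ) - j) ^ 2 = ((l : ℝ) + 1) ^ 2 := by
    rcases hl with rfl | rfl <;> push_cast <;> ring
  have h2 : ((-1 : ℝ) ^ k) ^ 2 = 1 := by rw [← pow_mul, mul_comm, pow_mul]; simp
  have h2' : ((-1 : ℝ) ^ j) ^ 2 = 1 := by rw [← pow_mul, mul_comm, pow_mul]; simp
  have h3 : ((-1 : ℝ) ^ k - (-1) ^ j) ^ 2 = if Even l then 4 else 0 := by
    rcases hl with rfl | rfl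
    · rw [pow_add (-1 : ℝ) j, pow_succ (-1 : ℝ) l]
      split_ifs with he
      · rw [he.neg_one_pow]; linear_combination 4 * h2'
      · rw [(Nat.not_even_iff_odd.1 he).neg_one_pow]; ring
    · rw [pow_add (-1 : ℝ) k, pow_succ (-1 : ℝ) l]
      split_ifs with he
      · rw [he.neg_one_pow]; linear_combination 4 * h2
      · rw [(Nat.not_even_iff_odd.1 he).neg_one_pow]; ring
  rw [mul_pow, mul_pow, mul_pow, h1, h2, h3]
  have hl0 : (0 : ℝ) < (l : ℝ) + 1 := by positivity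
  split_ifs <;> field_simp <;> ring

lemma prod_sq (T s h : ℝ) (K k : ℕ) (hs : 0 < s) (hk : k < K) :
    (∏ j ∈ (range K).erase k, ‖(zr T s h k - zr T s h j) / (zr T s h k - nd T s j)‖) ^ 2 =
      (Num (h / s) k / PP (h / s) k) * (Num (h / s) (K - (k + 1)) / PP (h / s) (K - (k + 1))) := by
  have e : (range K).erase k = range k ∪ Ico (k + 1) K := by
    ext x
    simp only [mem_erase, mem_range, mem_union, mem_Ico]
    omega
  have hd : Disjoint (range k) (Ico (k + 1) K) := by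
    rw [disjoint_left]
    intro x hx hx'
    simp only [mem_range, mem_Ico] at hx hx'
    omega
  rw [← prod_pow, e, prod_union hd, prod_Ico_eq_prod_range, ← prod_range_reflect _ k]
  congr 1
  · rw [Num, PP, ← prod_div_distrib]
    refine prod_congr rfl fun l hl => factor_sq T s h hs _ _ l (Or.inl ?_)
    have := mem_range.1 hl
    omega
  · rw [Num, PP, ← prod_div_distrib]
    exact prod_congr rfl fun l _ => factor_sq T s h hs _ _ l (Or.inr (by omega))

lemma fin (c P a b : ℝ) (hc : 0 ≤ c) (hP : 0 ≤ P) (h : P ^ 2 = a * b) (ha : 1 ≤ c * a)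
    (hb : 1 ≤ c * b) : 1 ≤ c * P := by
  have h1 : 1 ≤ (c * P) ^ 2 := by
    rw [mul_pow, h]
    nlinarith
  by_contra hlt
  have h2 : 0 ≤ c * P := mul_nonneg hc hP
  nlinarith

end B2

open B2

theorem blk_der (T s h : ℝ) (K k : ℕ) (hs : 0 < s) (hk : k < K) :
    1 ≤ PP (h / s) K * ∏ j ∈ (range K).erase k,
      ‖(zr T s h k - zr T s h j) / (zr T s h k - nd T s j)‖ := by
  have key : ∀ n, n ≤ K → 1 ≤ PP (h / s) K * (Num (h / s) n / PP (h / s) n) := by
    intro n hn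
    have h1 := one_le_PP (h / s) n
    have h2 := one_le_Num (h / s) n
    have h3 := PP_mono (h / s) hn
    rw [← mul_div_assoc, le_div_iff₀ (by linarith)]
    nlinarith
  exact fin _ _ _ _ (zero_le_one.trans (one_le_PP _ _)) (prod_nonneg fun _ _ => norm_nonneg _)
    (prod_sq T s h K k hs hk) (key _ hk.le) (key _ (by omega))

theorem blk_der_int (T s h : ℝ) (K k J : ℕ) (hs : 0 < s) (hh : s ≤ h) (hJ : (h / s) ^ 2 ≤ J)
    (hk1 : 2 * J ≤ k) (hk2 : k + 2 * J < K) :
    1 ≤ 3 * ∏ j ∈ (range K).erase k, ‖(zr T s h k - zr T s h j) / (zr T s h k - nd T s j)‖ := by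
  have h0 : 1 ≤ (h / s) ^ 2 := one_le_pow₀ ((one_le_div hs).2 hh)
  have key : ∀ n, 2 * J ≤ n → 1 ≤ 3 * (Num (h / s) n / PP (h / s) n) := by
    intro n hn
    have h1 := one_le_PP (h / s) n
    rw [← mul_div_assoc, le_div_iff₀ (by linarith), one_mul]
    exact PP_le_three _ J n h0 hJ hn
  exact fin _ _ _ _ (by norm_num) (prod_nonneg fun _ _ => norm_nonneg _)
    (prod_sq T s h K k hs (by omega)) (key _ hk1) (key _ (by omega))

end Pool.Agent.H590Z.HC
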